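import Mathlib

set_option autoImplicit false

/-!
# Forced simplex paths on Minkowski sums: the abstract argument

`P = conv {p j, p j + d i}`, where every functional that is negative on all `d i` is strictly
unimodal along the sequence `p 0, …, p L`.
-/

namespace Pool.Agent.TH105.LW

open Set

section face
variable {E : Type*} [AddCommGroup E] [Module ℝ E] [TopologicalSpace E]

/-- The face of a convex hull on which a functional is maximal. -/
lemma mem_face {V : Set E} {l : E →L[ℝ] ℝ} {M : ℝ} (hl : ∀ x ∈ V, l x ≤ M) {x : E}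
    (hx : x ∈ convexHull ℝ V) : l x < M ∨ x ∈ convexHull ℝ {y ∈ V | l y = M} := by
  have hconv : Convex ℝ ({x | l x < M} ∪ convexHull ℝ {y ∈ V | l y = M}) := by
    have hF : ∀ y ∈ convexHull ℝ {y ∈ V | l y = M}, l y = M := by
      intro y hy
      have h1 : convexHull ℝ {y ∈ V | l y = M} ⊆ {y | l y = M} :=
        convexHull_min (fun y hy => hy.2) (convex_hyperplane l.toLinearMap.isLinear M)
      exact h1 hy
    intro a ha b hb s t hs ht hst
    rcases ha with ha | ha <;> rcases hb with hb | hb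
    · left
      simp only [mem_setOf_eq] at ha hb ⊢
      rw [map_add, map_smul, map_smul, smul_eq_mul, smul_eq_mul]
      rcases hs.eq_or_lt with h | h
      · have : t = 1 := by linarith
        subst h; subst this; linarith
      · have h1 : s * l a < s * M := mul_lt_mul_of_pos_left ha h
        have h2 : t * l b ≤ t * M := mul_le_mul_of_nonneg_left hb.le ht
        have h3 : s * M + t * M = M := by rw [← add_mul, hst, one_mul]
        linarith
    · rcases hs.eq_or_lt with h | h
      · right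
        have : t = 1 := by linarith
        subst h; subst this
        rw [zero_smul, one_smul, zero_add]; exact hb
      · left
        have hb' := hF b hb
        simp only [mem_setOf_eq] at ha ⊢
        rw [map_add, map_smul, map_smul, smul_eq_mul, smul_eq_mul, hb']
        have h1 : s * l a < s * M := mul_lt_mul_of_pos_left ha h
        have h3 : s * M + t * M = M := by rw [← add_mul, hst, one_mul]
        linarith
    · rcases ht.eq_or_lt with h | h
      · right
        have : s = 1 := by linarith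
        subst h; subst this
        rw [zero_smul, one_smul, add_zero]; exact ha
      · left
        have ha' := hF a ha
        simp only [mem_setOf_eq] at hb ⊢
        rw [map_add, map_smul, map_smul, smul_eq_mul, smul_eq_mul, ha']
        have h1 : t * l b < t * M := mul_lt_mul_of_pos_left hb h
        have h3 : s * M + t * M = M := by rw [← add_mul, hst, one_mul]
        linarith
    · right
      exact convex_convexHull ℝ _ ha hb hs ht hst
  have hsub : convexHull ℝ V ⊆ ({x | l x < M} ∪ convexHull ℝ {y ∈ V | l y = M}) := by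
    apply convexHull_min _ hconv
    intro y hy
    rcases (hl y hy).lt_or_eq with h | h
    · left; exact h
    · right; exact subset_convexHull ℝ _ ⟨hy, h⟩
  exact hsub hx

end face

section abs
variable {E : Type*} [AddCommGroup E] [Module ℝ E] [TopologicalSpace E]

/-- A pivot: an edge of `P` from a vertex to a vertex along which `c` increases. -/
def Piv (P : Set E) (c : E →L[ℝ] ℝ) (x y : E) : Prop :=
  x ∈ P.extremePoints ℝ ∧ y ∈ P.extremePoints ℝ ∧ IsExposed ℝ P (segment ℝ x y) ∧ c x < c y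

variable {D : Type*}

/-- The generating points. -/
def gen (L : ℕ) (p : ℕ → E) (d : D → E) : Set E :=
  {x | ∃ j ≤ L, x = p j ∨ ∃ i, x = p j + d i}

variable {L : ℕ} {p : ℕ → E} {d : D → E}

lemma gen_le {l : E →L[ℝ] ℝ} {M : ℝ} (hd : ∀ i, l (d i) < 0) (hp : ∀ j ≤ L, l (p j) ≤ M) :
    ∀ x ∈ gen L p d, l x ≤ M := by
  rintro x ⟨j, hj, rfl | ⟨i, rfl⟩⟩
  · exact hp j hj
  · rw [map_add]
    linarith [hp j hj, hd i]

lemma gen_eq {l : E →L[ℝ] ℝ} {M : ℝ} (hd : ∀ i, l (d i) < 0) (hp : ∀ j ≤ L, l (p j) ≤ M) {x : E}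
    (hx : x ∈ gen L p d) (h : l x = M) : ∃ j ≤ L, x = p j ∧ l (p j) = M := by
  obtain ⟨j, hj, rfl | ⟨i, rfl⟩⟩ := hx
  · exact ⟨j, hj, rfl, h⟩
  · rw [map_add] at h
    linarith [hp j hj, hd i]

lemma mem_hull {j : ℕ} (hj : j ≤ L) : p j ∈ convexHull ℝ (gen L p d) :=
  subset_convexHull ℝ _ ⟨j, hj, Or.inl rfl⟩

lemma mem_hull' {j : ℕ} (hj : j ≤ L) (i : D) : p j + d i ∈ convexHull ℝ (gen L p d) :=
  subset_convexHull ℝ _ ⟨j, hj, Or.inr ⟨i, rfl⟩⟩

lemma hull_le {l : E →L[ℝ] ℝ} {M : ℝ} (hd : ∀ i, l (d i) < 0) (hp : ∀ j ≤ L, l (p j) ≤ M) :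
    ∀ x ∈ convexHull ℝ (gen L p d), l x ≤ M := by
  intro x hx
  have h1 : convexHull ℝ (gen L p d) ⊆ {y | l y ≤ M} :=
    convexHull_min (gen_le hd hp) (convex_halfSpace_le l.toLinearMap.isLinear M)
  exact h1 hx

/-- Vertices. -/
lemma vert {j : ℕ} (hj : j ≤ L)
    (H4 : ∃ l : E →L[ℝ] ℝ, (∀ i, l (d i) < 0) ∧ ∀ i ≤ L, i ≠ j → l (p i) < l (p j)) :
    p j ∈ (convexHull ℝ (gen L p d)).extremePoints ℝ := by
  obtain ⟨l, hd, hp⟩ := H4
  have hp' : ∀ i ≤ L, l (p i) ≤ l (p j) := fun i hi => by
    by_cases h : i = j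
    · rw [h]
    · exact (hp i hi h).le
  apply exposedPoints_subset_extremePoints
  refine ⟨mem_hull hj, l, fun y hy => ⟨hull_le hd hp' y hy, fun h => ?_⟩⟩
  rcases mem_face (gen_le hd hp') hy with h1 | h1
  · linarith
  · have : {y ∈ gen L p d | l y = l (p j)} ⊆ {p j} := by
      rintro z ⟨hz, hz'⟩
      obtain ⟨i, hi, rfl, h2⟩ := gen_eq hd hp' hz hz'
      by_cases h : i = j
      · rw [h]; rfl
      · exact absurd h2 (hp i hi h).ne
    have h2 := convexHull_mono (𝕜 := ℝ) this h1
    rwa [convexHull_singleton] at h2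

/-- Edges. -/
lemma edge {j : ℕ} (hj : j + 1 ≤ L)
    (H5 : ∃ l : E →L[ℝ] ℝ, (∀ i, l (d i) < 0) ∧ l (p (j+1)) = l (p j) ∧
      ∀ i ≤ L, i ≠ j → i ≠ j + 1 → l (p i) < l (p j)) :
    IsExposed ℝ (convexHull ℝ (gen L p d)) (segment ℝ (p j) (p (j+1))) := by
  obtain ⟨l, hd, he, hp⟩ := H5
  have hp' : ∀ i ≤ L, l (p i) ≤ l (p j) := fun i hi => by
    by_cases h : i = j
    · rw [h]
    · by_cases h' : i = j + 1
      · rw [h', he]
      · exact (hp i hi h h').le
  intro _
  refine ⟨l, ?_⟩
  ext x
  constructor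
  · intro hx
    have h0 : x ∈ convexHull ℝ (gen L p d) :=
      (convex_convexHull ℝ _).segment_subset (mem_hull (by omega)) (mem_hull hj) hx
    refine ⟨h0, fun y hy => ?_⟩
    have h1 : l x = l (p j) := by
      obtain ⟨a, b, ha, hb, hab, rfl⟩ := hx
      rw [map_add, map_smul, map_smul, he, smul_eq_mul, smul_eq_mul, ← add_mul, hab, one_mul]
    rw [h1]
    exact hull_le hd hp' y hy
  · rintro ⟨hx, hx'⟩
    rcases mem_face (gen_le hd hp') hx with h1 | h1
    · have := hx' (p j) (mem_hull (by omega))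
      linarith
    · have : {y ∈ gen L p d | l y = l (p j)} ⊆ {p j, p (j+1)} := by
        rintro z ⟨hz, hz'⟩
        obtain ⟨i, hi, rfl, h2⟩ := gen_eq hd hp' hz hz'
        by_cases h : i = j
        · rw [h]; exact Or.inl rfl
        · by_cases h' : i = j + 1
          · rw [h']; exact Or.inr rfl
          · exact absurd h2 (hp i hi h h').ne
      have h2 := convexHull_mono (𝕜 := ℝ) this h1
      rwa [convexHull_pair] at h2

/-- The improving edge is unique. -/
lemma forced {c : E →L[ℝ] ℝ} (H1 : ∀ i, c (d i) < 0) (H2 : ∀ j < L, c (p j) < c (p (j+1)))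
    (H3 : ∀ l : E →L[ℝ] ℝ, (∀ i, l (d i) < 0) → ∀ j, j + 2 ≤ L → l (p (j+1)) ≤ l (p j) →
      l (p (j+2)) < l (p (j+1))) {j : ℕ} (hj : j ≤ L) {y : E}
    (h : Piv (convexHull ℝ (gen L p d)) c (p j) y) : j < L ∧ y = p (j+1) := by
  obtain ⟨hx, hy, hexp, hc⟩ := h
  have hmono : ∀ a b, a ≤ b → b ≤ L → c (p a) ≤ c (p b) := by
    intro a b hab
    induction b, hab using Nat.le_induction with
    | base => intro _; exact le_refl _
    | succ b hb ih => intro hbL; exact (ih (by omega)).trans (H2 b (by omega)).le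
  obtain ⟨l, hl⟩ := hexp ⟨p j, left_mem_segment ℝ _ _⟩
  have hpj : p j ∈ {x ∈ convexHull ℝ (gen L p d) | ∀ y ∈ convexHull ℝ (gen L p d), l y ≤ l x} := by
    rw [← hl]; exact left_mem_segment ℝ _ _
  have hyj : y ∈ {x ∈ convexHull ℝ (gen L p d) | ∀ y ∈ convexHull ℝ (gen L p d), l y ≤ l x} := by
    rw [← hl]; exact right_mem_segment ℝ _ _
  have hly : l y = l (p j) := le_antisymm (hpj.2 y hyj.1) (hyj.2 _ hpj.1)
  have hd : ∀ i, l (d i) < 0 := by
    intro i
    have h1 := hpj.2 _ (mem_hull' (p := p) (d := d) hj i)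
    rw [map_add] at h1
    rcases (show l (d i) ≤ 0 by linarith).lt_or_eq with h2 | h2
    · exact h2
    · exfalso
      have h3 : p j + d i ∈ segment ℝ (p j) y := by
        rw [hl]
        refine ⟨mem_hull' hj i, fun z hz => ?_⟩
        rw [map_add, h2, add_zero]
        exact hpj.2 z hz
      obtain ⟨a, b, ha, hb, hab, h4⟩ := h3
      have h5 : c (p j + d i) = a * c (p j) + b * c y := by
        rw [← h4, map_add, map_smul, map_smul, smul_eq_mul, smul_eq_mul]
      rw [map_add] at h5
      have h6 : b * c (p j) ≤ b * c y := mul_le_mul_of_nonneg_left hc.le hb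
      have h7 : a * c (p j) + b * c (p j) = c (p j) := by rw [← add_mul, hab, one_mul]
      linarith [H1 i]
  have hp : ∀ i ≤ L, l (p i) ≤ l (p j) := fun i hi => hpj.2 _ (mem_hull hi)
  have hyg : y ∈ gen L p d := extremePoints_convexHull_subset hy
  obtain ⟨i, hi, rfl, hi'⟩ := gen_eq hd hp hyg hly
  have hij : j < i := by
    by_contra h
    exact absurd (hmono i j (by omega) hj) (not_le.2 hc)
  refine ⟨by omega, ?_⟩
  by_contra hne
  have hi2 : j + 2 ≤ i := by
    have : i ≠ j + 1 := fun h => hne (by rw [h])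
    omega
  have hdec : ∀ k, j + 1 ≤ k → k < L → l (p (k+1)) < l (p k) := by
    intro k hk
    induction k, hk using Nat.le_induction with
    | base => intro hkL; exact H3 l hd j (by omega) (hp _ (by omega))
    | succ k hk ih => intro hkL; exact H3 l hd k (by omega) (ih (by omega)).le
  have hdec2 : ∀ k, j + 2 ≤ k → k ≤ L → l (p k) < l (p (j+1)) := by
    intro k hk
    induction k, hk using Nat.le_induction with
    | base => intro hkL; exact hdec (j+1) (le_refl _) (by omega)
    | succ k hk ih => intro hkL; exact (hdec k (by omega) (by omega)).trans (ih (by omega))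
  have := hdec2 i hi2 hi
  have h1 := hp (j+1) (by omega)
  linarith

end abs

end Pool.Agent.TH105.LW
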