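import Pool.Agent.TH105.LW.Num

set_option autoImplicit false

/-!
# The points `pt j` and the vectors `dv i`
-/

namespace Pool.Agent.TH105.LW

open Finset

/-- The coordinates: `ζ 0, …, ζ M`, `u` (= `false`), `v` (= `true`), `a 0, …, a (2s-1)`,
`b 0, …, b (s-1)`. -/
abbrev Co (M s : ℕ) := Fin (M+1) ⊕ (Bool ⊕ (Fin (2*s) ⊕ Fin s))

/-- The indices of the vectors `dv`. -/
abbrev Di (M s : ℕ) := Fin (M+1) ⊕ (Bool ⊕ ((Fin (2*s) × Bool) ⊕ (Fin s × Bool)))

/-- The point with number `j`: the digits in base `q` of `j (j + 1) / 2` and of `j`. -/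
def pt (q M s j : ℕ) : Co M s → ℤ :=
  Sum.elim (fun _ => 0) (Sum.elim (fun _ => 0)
    (Sum.elim (fun i => (dig q (tri j) i : ℤ)) (fun i => (dig q j i : ℤ))))

/-- A sign. -/
def sg (σ : Bool) : ℤ := if σ then 1 else -1

/-- `(q - 1) ∑_{l < i} e (ζ l) - e (ζ i)` -/
def dz (q M s : ℕ) (i : Fin (M+1)) : Co M s → ℤ :=
  Sum.elim (fun l => if (l:ℕ) < i then (q:ℤ) - 1 else if (l:ℕ) = i then -1 else 0) (fun _ => 0)

/-- `e (ζ M) - e u` and `- e v` -/
def du (M s : ℕ) (t : Bool) : Co M s → ℤ :=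
  Sum.elim (fun l => if t = false ∧ (l:ℕ) = M then 1 else 0)
    (Sum.elim (fun t' => if t' = t then -1 else 0) (fun _ => 0))

/-- `± (e (a i) + e u - (q - 1) ∑_{l < i} e (a l)) - e (ζ 0)` -/
def da (q M s : ℕ) (i : Fin (2*s) × Bool) : Co M s → ℤ :=
  Sum.elim (fun l => if (l:ℕ) = 0 then -1 else 0)
    (Sum.elim (fun t => if t = false then sg i.2 else 0)
      (Sum.elim (fun l => if (l:ℕ) < i.1 then - sg i.2 * ((q:ℤ) - 1) else
        if (l:ℕ) = i.1 then sg i.2 else 0) (fun _ => 0)))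

/-- `± (e (b i) - e v - (q - 1) ∑_{l < i} e (b l)) - e (ζ 0)` -/
def db (q M s : ℕ) (i : Fin s × Bool) : Co M s → ℤ :=
  Sum.elim (fun l => if (l:ℕ) = 0 then -1 else 0)
    (Sum.elim (fun t => if t = true then - sg i.2 else 0)
      (Sum.elim (fun _ => 0)
        (fun l => if (l:ℕ) < i.1 then - sg i.2 * ((q:ℤ) - 1) else
          if (l:ℕ) = i.1 then sg i.2 else 0)))

/-- All the vectors. -/
def dv (q M s : ℕ) : Di M s → Co M s → ℤ :=
  Sum.elim (dz q M s) (Sum.elim (du M s) (Sum.elim (da q M s) (db q M s)))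

lemma sg_range (σ : Bool) : sg σ = 1 ∨ sg σ = -1 := by
  unfold sg; split <;> simp

lemma pt_range {q : ℕ} (hq : 2 ≤ q) (M s j : ℕ) (k : Co M s) :
    0 ≤ pt q M s j k ∧ pt q M s j k ≤ (q:ℤ) - 1 := by
  have h : ∀ N i : ℕ, (dig q N i : ℤ) ≤ (q:ℤ) - 1 := fun N i => by
    have := dig_lt (show 1 ≤ q by omega) N i
    omega
  have hq' : (0:ℤ) ≤ (q:ℤ) - 1 := by omega
  rcases k with k | k | k | k
  · exact ⟨le_refl _, hq'⟩
  · exact ⟨le_refl _, hq'⟩
  · exact ⟨by simp [pt], by simpa [pt] using h _ _⟩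
  · exact ⟨by simp [pt], by simpa [pt] using h _ _⟩

lemma dv_range {q : ℕ} (hq : 2 ≤ q) (M s : ℕ) (i : Di M s) (k : Co M s) :
    -((q:ℤ) - 1) ≤ dv q M s i k ∧ dv q M s i k ≤ (q:ℤ) - 1 := by
  rcases i with i | i | ⟨i, σ⟩ | ⟨i, σ⟩
  · rcases k with k | k | k | k
    · simp only [dv, dz, Sum.elim_inl]; split_ifs <;> omega
    · simp only [dv, dz, Sum.elim_inl, Sum.elim_inr]; omega
    · simp only [dv, dz, Sum.elim_inl, Sum.elim_inr]; omega
    · simp only [dv, dz, Sum.elim_inl, Sum.elim_inr]; omega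
  · rcases k with k | k | k | k
    · simp only [dv, du, Sum.elim_inl, Sum.elim_inr]; split_ifs <;> omega
    · simp only [dv, du, Sum.elim_inl, Sum.elim_inr]; split_ifs <;> omega
    · simp only [dv, du, Sum.elim_inl, Sum.elim_inr]; omega
    · simp only [dv, du, Sum.elim_inl, Sum.elim_inr]; omega
  · rcases sg_range σ with h | h <;> rcases k with k | k | k | k <;>
      simp only [dv, da, Sum.elim_inl, Sum.elim_inr, h] <;> (try split_ifs) <;> omega
  · rcases sg_range σ with h | h <;> rcases k with k | k | k | k <;>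
      simp only [dv, db, Sum.elim_inl, Sum.elim_inr, h] <;> (try split_ifs) <;> omega

section dot
variable {M s : ℕ} (w : Co M s → ℝ)

/-- The weight of `ζ i`. -/
def zf (i : ℕ) : ℝ := if h : i < M + 1 then w (Sum.inl ⟨i, h⟩) else 0
/-- The weight of `a i`. -/
def af (i : ℕ) : ℝ := if h : i < 2 * s then w (Sum.inr (Sum.inr (Sum.inl ⟨i, h⟩))) else 0
/-- The weight of `b i`. -/
def bf (i : ℕ) : ℝ := if h : i < s then w (Sum.inr (Sum.inr (Sum.inr ⟨i, h⟩))) else 0
/-- The weight of `u`. -/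
def uf : ℝ := w (Sum.inr (Sum.inl false))
/-- The weight of `v`. -/
def vf : ℝ := w (Sum.inr (Sum.inl true))

lemma zf_eq (i : Fin (M+1)) : w (Sum.inl i) = zf w i := by unfold zf; rw [dif_pos i.2]
lemma af_eq (i : Fin (2*s)) : w (Sum.inr (Sum.inr (Sum.inl i))) = af w i := by
  unfold af; rw [dif_pos i.2]
lemma bf_eq (i : Fin s) : w (Sum.inr (Sum.inr (Sum.inr i))) = bf w i := by
  unfold bf; rw [dif_pos i.2]

lemma finsum (m : ℕ) (F : ℕ → ℝ) (i : Fin m) (α β : ℝ) :
    ∑ l : Fin m, (if (l:ℕ) < i then α else if (l:ℕ) = i then β else 0) * F l =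
      α * ∑ l ∈ range i, F l + β * F i := by
  rw [Fin.sum_univ_eq_sum_range (fun l => (if l < (i:ℕ) then α else if l = (i:ℕ) then β else 0) * F l)]
  have h1 : ∑ l ∈ range m, (if l < (i:ℕ) then α else if l = (i:ℕ) then β else 0) * F l =
      ∑ l ∈ range (i+1), (if l < (i:ℕ) then α else if l = (i:ℕ) then β else 0) * F l := by
    symm
    apply sum_subset
    · intro x hx
      rw [mem_range] at hx ⊢
      have := i.2
      omega
    · intro x _ hx
      rw [mem_range, not_lt] at hx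
      rw [if_neg (by omega), if_neg (by omega), zero_mul]
  rw [h1, sum_range_succ, if_neg (lt_irrefl _), if_pos rfl, mul_sum]
  congr 1
  apply sum_congr rfl
  intro x hx
  rw [mem_range] at hx
  rw [if_pos hx]

lemma finsum1 (m : ℕ) (F : ℕ → ℝ) (i : ℕ) (hi : i < m) (α : ℝ) :
    ∑ l : Fin m, (if (l:ℕ) = i then α else 0) * F l = α * F i := by
  rw [Fin.sum_univ_eq_sum_range (fun l => (if l = i then α else 0) * F l)]
  rw [sum_eq_single i]
  · rw [if_pos rfl]
  · intro b _ hb; rw [if_neg hb, zero_mul]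
  · intro h; exact absurd (mem_range.2 hi) h

lemma dot_pt (q j : ℕ) : ∑ k, (pt q M s j k : ℝ) * w k =
    ∑ i ∈ range (2*s), (dig q (tri j) i : ℝ) * af w i +
      ∑ i ∈ range s, (dig q j i : ℝ) * bf w i := by
  rw [Fintype.sum_sum_type, Fintype.sum_sum_type, Fintype.sum_sum_type]
  simp only [pt, Sum.elim_inl, Sum.elim_inr, Int.cast_zero, zero_mul, sum_const_zero, zero_add,
    af_eq, bf_eq, Int.cast_natCast]
  rw [Fin.sum_univ_eq_sum_range (fun i => (dig q (tri j) i : ℝ) * af w i),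
    Fin.sum_univ_eq_sum_range (fun i => (dig q j i : ℝ) * bf w i)]

variable (q : ℕ)

lemma dot_dz (i : Fin (M+1)) : ∑ k, (dv q M s (Sum.inl i) k : ℝ) * w k =
    (q - 1) * ∑ l ∈ range i, zf w l - zf w i := by
  rw [Fintype.sum_sum_type]
  simp only [dv, dz, Sum.elim_inl, Sum.elim_inr, Int.cast_zero, zero_mul, sum_const_zero, add_zero,
    zf_eq]
  have h := finsum (M+1) (zf w) i ((q:ℝ) - 1) (-1)
  rw [neg_one_mul] at h
  rw [sub_eq_add_neg _ (zf w i), ← h]
  apply sum_congr rfl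
  intro l _
  push_cast
  rfl

lemma dot_du0 : ∑ k, (dv q M s (Sum.inr (Sum.inl false)) k : ℝ) * w k = zf w M - uf w := by
  rw [Fintype.sum_sum_type, Fintype.sum_sum_type]
  simp only [dv, du, Sum.elim_inl, Sum.elim_inr, Int.cast_zero, zero_mul, sum_const_zero, add_zero,
    zf_eq, true_and]
  have h := finsum1 (M+1) (zf w) M (by omega) 1
  rw [one_mul] at h
  rw [← h, Fintype.sum_bool, sub_eq_add_neg]
  congr 1
  · apply sum_congr rfl
    intro l _
    push_cast
    rfl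
  · simp [uf]

lemma dot_du1 : ∑ k, (dv q M s (Sum.inr (Sum.inl true)) k : ℝ) * w k = - vf w := by
  rw [Fintype.sum_sum_type, Fintype.sum_sum_type]
  simp only [dv, du, Sum.elim_inl, Sum.elim_inr, Int.cast_zero, zero_mul, sum_const_zero, add_zero,
    Fintype.sum_bool]
  simp [vf]

lemma dot_da (i : Fin (2*s)) (σ : Bool) :
    ∑ k, (dv q M s (Sum.inr (Sum.inr (Sum.inl (i, σ)))) k : ℝ) * w k =
    sg σ * (af w i - (- uf w) - (q - 1) * ∑ l ∈ range i, af w l) - zf w 0 := by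
  rw [Fintype.sum_sum_type, Fintype.sum_sum_type, Fintype.sum_sum_type]
  simp only [dv, da, Sum.elim_inl, Sum.elim_inr, Int.cast_zero, zero_mul, sum_const_zero, add_zero,
    Fintype.sum_bool, zf_eq, af_eq]
  have h := finsum1 (M+1) (zf w) 0 (by omega) (-1)
  have h' := finsum (2*s) (af w) i (- sg σ * ((q:ℝ) - 1)) (sg σ)
  have e1 : ∑ x : Fin (M+1), ((if (x:ℕ) = 0 then -1 else 0 : ℤ) : ℝ) * zf w x = -1 * zf w 0 := by
    rw [← h]
    apply sum_congr rfl
    intro l _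
    push_cast
    rfl
  have e2 : ∑ x : Fin (2*s), ((if (x:ℕ) < i then - sg σ * ((q:ℤ) - 1) else
      if (x:ℕ) = i then sg σ else 0 : ℤ) : ℝ) *
      af w x = - sg σ * ((q:ℝ) - 1) * ∑ l ∈ range i, af w l + sg σ * af w i := by
    rw [← h']
    apply sum_congr rfl
    intro l _
    push_cast
    rfl
  rw [e1, e2]
  simp only [uf, if_true, Bool.true_eq_false, if_false]
  push_cast
  ring

lemma dot_db (i : Fin s) (σ : Bool) :
    ∑ k, (dv q M s (Sum.inr (Sum.inr (Sum.inr (i, σ)))) k : ℝ) * w k =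
    sg σ * (bf w i - vf w - (q - 1) * ∑ l ∈ range i, bf w l) - zf w 0 := by
  rw [Fintype.sum_sum_type, Fintype.sum_sum_type, Fintype.sum_sum_type]
  simp only [dv, db, Sum.elim_inl, Sum.elim_inr, Int.cast_zero, zero_mul, sum_const_zero, zero_add,
    Fintype.sum_bool, zf_eq, bf_eq]
  have h := finsum1 (M+1) (zf w) 0 (by omega) (-1)
  have h' := finsum s (bf w) i (- sg σ * ((q:ℝ) - 1)) (sg σ)
  have e1 : ∑ x : Fin (M+1), ((if (x:ℕ) = 0 then -1 else 0 : ℤ) : ℝ) * zf w x = -1 * zf w 0 := by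
    rw [← h]
    apply sum_congr rfl
    intro l _
    push_cast
    rfl
  have e2 : ∑ x : Fin s, ((if (x:ℕ) < i then - sg σ * ((q:ℤ) - 1) else
      if (x:ℕ) = i then sg σ else 0 : ℤ) : ℝ) *
      bf w x = - sg σ * ((q:ℝ) - 1) * ∑ l ∈ range i, bf w l + sg σ * bf w i := by
    rw [← h']
    apply sum_congr rfl
    intro l _
    push_cast
    rfl
  rw [e1, e2]
  simp only [vf, if_true, Bool.false_eq_true, if_false]
  push_cast
  ring

end dot

end Pool.Agent.TH105.LW
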