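import Mathlib

set_option autoImplicit false

/-!
# Lattice polytopes are given by integral linear inequalities
-/

namespace Pool.Agent.TH105.LW

open Finset

section fm
variable {n : ℕ}

/-- The linear form of a row. -/
def rowv (a : Fin n → ℤ) (x : Fin n → ℝ) : ℝ := ∑ i, (a i : ℝ) * x i

lemma rowv_add (a : Fin n → ℤ) (x y : Fin n → ℝ) : rowv a (x + y) = rowv a x + rowv a y := by
  unfold rowv
  rw [← sum_add_distrib]
  exact sum_congr rfl fun i _ => by rw [Pi.add_apply]; ring

lemma rowv_smul (a : Fin n → ℤ) (t : ℝ) (x : Fin n → ℝ) : rowv a (t • x) = t * rowv a x := by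
  unfold rowv
  rw [mul_sum]
  exact sum_congr rfl fun i _ => by rw [Pi.smul_apply, smul_eq_mul]; ring

lemma rowv_comb (p q : ℤ) (a b : Fin n → ℤ) (x : Fin n → ℝ) :
    rowv (p • a - q • b) x = p * rowv a x - q * rowv b x := by
  unfold rowv
  rw [mul_sum, mul_sum, ← sum_sub_distrib]
  refine sum_congr rfl fun i _ => ?_
  simp only [Pi.sub_apply, Pi.smul_apply, smul_eq_mul]
  push_cast
  ring

/-- Fourier–Motzkin elimination of one variable. -/
lemma fm (T : Finset (ℤ × (Fin n → ℤ) × ℤ)) (h2 : ∃ r ∈ T, r.1 < 0) :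
    ∃ S : Finset ((Fin n → ℤ) × ℤ), ∀ x : Fin n → ℝ,
      (∃ t : ℝ, ∀ r ∈ T, t * r.1 ≤ r.2.2 - rowv r.2.1 x) ↔ ∀ r ∈ S, rowv r.1 x ≤ r.2 := by
  classical
  refine ⟨(T.filter (fun r => r.1 = 0)).image (fun r => r.2) ∪
    ((T.filter (fun r => 0 < r.1)) ×ˢ (T.filter (fun r => r.1 < 0))).image
      (fun r => (r.1.1 • r.2.2.1 - r.2.1 • r.1.2.1, r.1.1 * r.2.2.2 - r.2.1 * r.1.2.2)), ?_⟩
  intro x
  constructor
  · rintro ⟨t, ht⟩ r hr
    rw [mem_union, mem_image, mem_image] at hr
    rcases hr with ⟨r', hr', rfl⟩ | ⟨⟨r1, r2⟩, hr', rfl⟩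
    · rw [mem_filter] at hr'
      have := ht r' hr'.1
      rw [hr'.2] at this
      simp at this
      exact this
    · rw [mem_product, mem_filter, mem_filter] at hr'
      obtain ⟨⟨h1, h1'⟩, h3, h3'⟩ := hr'
      have e1 := ht r1 h1
      have e2 := ht r2 h3
      simp only at h1' h3' ⊢
      rw [rowv_comb]
      push_cast
      have p1 : (0:ℝ) < r1.1 := by exact_mod_cast h1'
      have p2 : (r2.1:ℝ) < 0 := by exact_mod_cast h3'
      have m1 := mul_le_mul_of_nonneg_left e2 p1.le
      have m2 := mul_le_mul_of_nonneg_left e1 (neg_pos.2 p2).le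
      nlinarith
  · intro h
    obtain ⟨r₀, hr₀, hr₀'⟩ := h2
    obtain ⟨q, hq, hmax⟩ := exists_max_image (T.filter (fun r => r.1 < 0))
      (fun r => ((r.2.2 : ℝ) - rowv r.2.1 x) / r.1) ⟨r₀, mem_filter.2 ⟨hr₀, hr₀'⟩⟩
    rw [mem_filter] at hq
    have pq : (q.1:ℝ) < 0 := by exact_mod_cast hq.2
    refine ⟨((q.2.2 : ℝ) - rowv q.2.1 x) / q.1, fun r hr => ?_⟩
    rcases lt_trichotomy r.1 0 with h0 | h0 | h0
    · have h4 := hmax r (mem_filter.2 ⟨hr, h0⟩)
      have p : (r.1:ℝ) < 0 := by exact_mod_cast h0
      rw [div_le_iff_of_neg p] at h4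
      exact h4
    · have h4 := h r.2 (mem_union_left _ (mem_image.2 ⟨r, mem_filter.2 ⟨hr, h0⟩, rfl⟩))
      rw [h0]
      push_cast
      linarith
    · have h4 := h (r.1 • q.2.1 - q.1 • r.2.1, r.1 * q.2.2 - q.1 * r.2.2)
        (mem_union_right _ (mem_image.2 ⟨(r, q), mem_product.2 ⟨mem_filter.2 ⟨hr, h0⟩,
          mem_filter.2 hq⟩, rfl⟩))
      simp only at h4
      rw [rowv_comb] at h4
      push_cast at h4
      rw [div_mul_eq_mul_div, div_le_iff_of_neg pq]
      nlinarith

/-- The real vector of an integral vector. -/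
def cst (v : Fin n → ℤ) : Fin n → ℝ := fun i => (v i : ℝ)

/-- The integral product. -/
def idot (a v : Fin n → ℤ) : ℤ := ∑ i, a i * v i

lemma rowv_cst (a v : Fin n → ℤ) : rowv a (cst v) = idot a v := by
  unfold rowv cst idot
  push_cast
  rfl

/-- **Minkowski–Weyl for lattice polytopes.** -/
theorem exists_rows (V : Finset (Fin n → ℤ)) (hV : V.Nonempty) :
    ∃ S : Finset ((Fin n → ℤ) × ℤ), ∀ x : Fin n → ℝ,
      x ∈ convexHull ℝ (cst '' (V : Set (Fin n → ℤ))) ↔ ∀ r ∈ S, rowv r.1 x ≤ r.2 := by
  classical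
  induction hV using Finset.Nonempty.cons_induction with
  | singleton v =>
    refine ⟨(univ.image fun i : Fin n => ((Pi.single i 1 : Fin n → ℤ), v i)) ∪
      (univ.image fun i : Fin n => (-(Pi.single i 1 : Fin n → ℤ), - v i)), fun x => ?_⟩
    have h1 : ∀ i : Fin n, rowv (Pi.single i 1) x = x i := by
      intro i
      unfold rowv
      rw [sum_eq_single i]
      · simp
      · intro j _ hj; simp [Pi.single_eq_of_ne hj]
      · intro h; exact absurd (mem_univ _) h
    have h2 : ∀ i : Fin n, rowv (-(Pi.single i 1)) x = - x i := by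
      intro i
      rw [← h1 i]
      unfold rowv
      rw [← sum_neg_distrib]
      exact sum_congr rfl fun j _ => by rw [Pi.neg_apply]; push_cast; ring
    rw [coe_singleton, Set.image_singleton, convexHull_singleton, Set.mem_singleton_iff]
    constructor
    · rintro rfl r hr
      rw [mem_union, mem_image, mem_image] at hr
      rcases hr with ⟨i, _, rfl⟩ | ⟨i, _, rfl⟩
      · rw [h1]; rfl
      · rw [h2]; simp [cst]
    · intro h
      ext i
      have e1 := h (Pi.single i 1, v i) (mem_union_left _ (mem_image.2 ⟨i, mem_univ _, rfl⟩))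
      have e2 := h (-(Pi.single i 1), - v i) (mem_union_right _ (mem_image.2 ⟨i, mem_univ _, rfl⟩))
      simp only at e1 e2
      rw [h1] at e1
      rw [h2] at e2
      push_cast at e2
      exact le_antisymm e1 (by unfold cst; linarith)
  | cons v V hv hVn ih =>
    obtain ⟨S, hS⟩ := ih
    obtain ⟨S', hS'⟩ := fm (insert (1, (0 : Fin n → ℤ), 1) (insert (-1, (0 : Fin n → ℤ), 0)
      (S.image fun r => (idot r.1 v - r.2, r.1, idot r.1 v)))) ⟨(-1, 0, 0), by simp, by norm_num⟩
    refine ⟨S', fun x => ?_⟩
    rw [← hS' x]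
    have hne : (cst '' (V : Set (Fin n → ℤ))).Nonempty := by
      obtain ⟨w, hw⟩ := hVn
      exact ⟨cst w, w, hw, rfl⟩
    have hz : rowv (0 : Fin n → ℤ) x = 0 := by simp [rowv]
    have key : (∃ t : ℝ, ∀ r ∈ insert ((1:ℤ), (0 : Fin n → ℤ), (1:ℤ)) (insert (-1, (0 : Fin n → ℤ), 0)
      (S.image fun r => (idot r.1 v - r.2, r.1, idot r.1 v))), t * r.1 ≤ r.2.2 - rowv r.2.1 x) ↔
      ∃ t : ℝ, 0 ≤ t ∧ t ≤ 1 ∧ ∀ r ∈ S, t * (rowv r.1 (cst v) - r.2) ≤ rowv r.1 (cst v) - rowv r.1 x := by
      constructor
      · rintro ⟨t, ht⟩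
        refine ⟨t, ?_, ?_, fun r hr => ?_⟩
        · have := ht (-1, 0, 0) (by simp)
          simp only [hz] at this
          push_cast at this
          linarith
        · have := ht (1, 0, 1) (by simp)
          simp only [hz] at this
          push_cast at this
          linarith
        · have := ht (idot r.1 v - r.2, r.1, idot r.1 v)
            (mem_insert_of_mem (mem_insert_of_mem (mem_image.2 ⟨r, hr, rfl⟩)))
          simp only at this
          push_cast at this
          rw [rowv_cst]
          exact this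
      · rintro ⟨t, h0, h1, h⟩
        refine ⟨t, fun r hr => ?_⟩
        rw [mem_insert, mem_insert, mem_image] at hr
        rcases hr with rfl | rfl | ⟨r, hr, rfl⟩
        · simp only [hz]; push_cast; linarith
        · simp only [hz]; push_cast; linarith
        · have := h r hr
          rw [rowv_cst] at this
          simp only
          push_cast
          exact this
    rw [key, coe_cons, Set.image_insert_eq, convexHull_insert hne, mem_convexJoin]
    constructor
    · rintro ⟨a, ha, y, hy, hx⟩
      rw [Set.mem_singleton_iff] at ha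
      subst ha
      obtain ⟨p, q, hp, hq, hpq, rfl⟩ := hx
      refine ⟨q, hq, by linarith, fun r hr => ?_⟩
      have h1 := (hS y).1 hy r hr
      rw [rowv_add, rowv_smul, rowv_smul]
      have h2 := mul_le_mul_of_nonneg_left h1 hq
      have h3 : p = 1 - q := by linarith
      rw [h3]
      linarith
    · rintro ⟨t, h0, h1, h⟩
      refine ⟨cst v, rfl, ?_⟩
      rcases h0.eq_or_lt with ht | ht
      · -- `t = 0`: then `x = v`
        subst ht
        obtain ⟨w, hw⟩ := hne
        have hw' := subset_convexHull ℝ _ hw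
        have hxv : x = cst v := by
          have hray : ∀ k : ℕ, w + (k:ℝ) • (x - cst v) ∈ convexHull ℝ (cst '' (V : Set (Fin n → ℤ))) := by
            intro k
            rw [hS]
            intro r hr
            have e1 := (hS w).1 hw' r hr
            have e2 := h r hr
            rw [rowv_add, rowv_smul, sub_eq_add_neg, rowv_add,
              show -(cst v) = (-1:ℝ) • cst v by rw [neg_one_smul], rowv_smul]
            have : (k:ℝ) * (rowv r.1 x + -1 * rowv r.1 (cst v)) ≤ 0 := by
              apply mul_nonpos_of_nonneg_of_nonpos (by positivity)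
              linarith
            linarith
          have hb : Bornology.IsBounded (convexHull ℝ (cst '' (V : Set (Fin n → ℤ)))) :=
            isBounded_convexHull.2 ((V.finite_toSet.image _).isBounded)
          obtain ⟨R, hR⟩ := hb.exists_norm_le
          ext i
          by_contra hi
          have hpos : 0 < |x i - cst v i| := abs_pos.2 (sub_ne_zero.2 hi)
          obtain ⟨k, hk⟩ := exists_nat_gt ((R + |w i|) / |x i - cst v i|)
          have e1 := hR _ (hray k)
          have e2 := (norm_le_pi_norm (w + (k:ℝ) • (x - cst v)) i).trans e1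
          rw [Pi.add_apply, Pi.smul_apply, Pi.sub_apply, smul_eq_mul, Real.norm_eq_abs] at e2
          rw [div_lt_iff₀ hpos] at hk
          have e3 : |(k:ℝ) * (x i - cst v i)| = k * |x i - cst v i| := by
            rw [abs_mul, abs_of_nonneg (by positivity : (0:ℝ) ≤ k)]
          have e4 : |(k:ℝ) * (x i - cst v i)| ≤ |w i + (k:ℝ) * (x i - cst v i)| + |w i| := by
            have := abs_sub (w i + (k:ℝ) * (x i - cst v i)) (w i)
            rw [add_sub_cancel_left] at this
            exact this
          linarith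
        rw [hxv]
        exact ⟨w, hw', left_mem_segment ℝ _ _⟩
      · refine ⟨t⁻¹ • (x + (t - 1) • cst v), ?_, ?_⟩
        · rw [hS]
          intro r hr
          have e1 := h r hr
          rw [rowv_smul, rowv_add, rowv_smul, inv_mul_le_iff₀ ht]
          linarith
        · refine ⟨1 - t, t, by linarith, h0, by ring, ?_⟩
          rw [smul_smul, mul_inv_cancel₀ ht.ne', one_smul]
          ext i
          simp only [Pi.add_apply, Pi.smul_apply, smul_eq_mul]
          ring

end fm

end Pool.Agent.TH105.LW
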