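import Pool.Agent.TH105.LW.Coord

set_option autoImplicit false

/-!
# The tube lemma and the test functionals
-/

namespace Pool.Agent.TH105.LW

open Finset

/-- The value of the weight `w` at `pt j`. -/
noncomputable def vp (q : ℕ) {M s : ℕ} (w : Co M s → ℝ) (j : ℕ) : ℝ :=
  ∑ k, (pt q M s j k : ℝ) * w k

/-- The value of the weight `w` at `dv i`. -/
noncomputable def vd (q : ℕ) {M s : ℕ} (w : Co M s → ℝ) (i : Di M s) : ℝ :=
  ∑ k, (dv q M s i k : ℝ) * w k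

section tube
variable {q M s : ℕ} {w : Co M s → ℝ}

lemma zeta_pos (h : ∀ i, vd q w i < 0) : 0 < zf w 0 := by
  have := h (Sum.inl ⟨0, by omega⟩)
  rw [vd, dot_dz] at this
  simp at this
  exact this

lemma zeta_grow (hq : 2 ≤ q) (h : ∀ i, vd q w i < 0) : ∀ i ≤ M, q ^ i * zf w 0 ≤ 2 * zf w i ∧
    q ^ i * zf w 0 ≤ ∑ l ∈ range (i+1), zf w l := by
  have hq' : (2:ℝ) ≤ q := by exact_mod_cast hq
  intro i
  induction i with
  | zero =>
    intro _
    have := zeta_pos h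
    simp
    linarith
  | succ i ih =>
    intro hi
    obtain ⟨h1, h2⟩ := ih (by omega)
    have h3 := h (Sum.inl ⟨i+1, by omega⟩)
    rw [vd, dot_dz] at h3
    simp only at h3
    have hz := zeta_pos h
    have hp : 0 < (q:ℝ) ^ i * zf w 0 := by positivity
    have h4 : ((q:ℝ) - 1) * (q ^ i * zf w 0) ≤ (q - 1) * ∑ l ∈ range (i+1), zf w l :=
      mul_le_mul_of_nonneg_left h2 (by linarith)
    constructor
    · rw [pow_succ]; nlinarith
    · rw [sum_range_succ, pow_succ]; nlinarith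

lemma u_big (hq : 2 ≤ q) (h : ∀ i, vd q w i < 0) : q ^ M * zf w 0 < 2 * uf w := by
  have h1 := (zeta_grow hq h M le_rfl).1
  have h2 := h (Sum.inr (Sum.inl false))
  rw [vd, dot_du0] at h2
  linarith

lemma abs_le_of_sg {x z : ℝ} (h1 : (sg true : ℝ) * x - z < 0) (h2 : (sg false : ℝ) * x - z < 0) :
    |x| ≤ z := by
  simp [sg] at h1 h2
  rw [abs_le]
  constructor <;> linarith

lemma a_approx (hq : 2 ≤ q) (h : ∀ i, vd q w i < 0) {i : ℕ} (hi : i < 2 * s) :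
    |af w i - q ^ i * (- uf w)| ≤ q ^ i * zf w 0 := by
  apply dbl (q := q) (m := 2*s) (by omega) _ hi
  intro i hi
  have h1 := h (Sum.inr (Sum.inr (Sum.inl (⟨i, hi⟩, true))))
  have h2 := h (Sum.inr (Sum.inr (Sum.inl (⟨i, hi⟩, false))))
  rw [vd, dot_da] at h1 h2
  exact abs_le_of_sg h1 h2

lemma b_approx (hq : 2 ≤ q) (h : ∀ i, vd q w i < 0) {i : ℕ} (hi : i < s) :
    |bf w i - q ^ i * vf w| ≤ q ^ i * zf w 0 := by
  apply dbl (q := q) (m := s) (by omega) _ hi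
  intro i hi
  have h1 := h (Sum.inr (Sum.inr (Sum.inr (⟨i, hi⟩, true))))
  have h2 := h (Sum.inr (Sum.inr (Sum.inr (⟨i, hi⟩, false))))
  rw [vd, dot_db] at h1 h2
  exact abs_le_of_sg h1 h2

lemma vp_approx (hq : 2 ≤ q) (h : ∀ i, vd q w i < 0) {j : ℕ} (hj : j < q ^ s) :
    |vp q w j - (j * vf w - tri j * uf w)| ≤ q ^ (2*s) * zf w 0 := by
  have hz := zeta_pos h
  have h1 : tri j < q ^ (2*s) := tri_lt' hj
  have h2 := dig_approx h1 (fun i hi => a_approx hq h hi)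
  have h3 := dig_approx hj (fun i hi => b_approx hq h hi)
  have h4 : ((j + tri j : ℕ) : ℝ) ≤ q ^ (2*s) := by exact_mod_cast tri_lt hj
  unfold vp
  rw [dot_pt]
  have e : (∑ i ∈ range (2*s), (dig q (tri j) i : ℝ) * af w i +
      ∑ i ∈ range s, (dig q j i : ℝ) * bf w i) - (j * vf w - tri j * uf w) =
      (∑ i ∈ range (2*s), (dig q (tri j) i : ℝ) * af w i - tri j * (- uf w)) +
      (∑ i ∈ range s, (dig q j i : ℝ) * bf w i - j * vf w) := by ring
  rw [e]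
  refine (abs_add_le _ _).trans ?_
  push_cast at h4
  nlinarith [mul_le_mul_of_nonneg_right h4 hz.le]

/-- **The tube lemma.** -/
theorem unimodal (hq : 2 ≤ q) (hM : 2 * s + 3 ≤ M) (h : ∀ i, vd q w i < 0) {j : ℕ}
    (hj : j + 2 < q ^ s) (hle : vp q w (j+1) ≤ vp q w j) : vp q w (j+2) < vp q w (j+1) := by
  have hz := zeta_pos h
  have h0 := vp_approx hq h (show j < q ^ s by omega)
  have h1 := vp_approx hq h (show j + 1 < q ^ s by omega)
  have h2 := vp_approx hq h hj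
  have hu := u_big hq h
  have hq' : (2:ℝ) ≤ q := by exact_mod_cast hq
  have h3 : (q:ℝ) ^ (2*s+3) ≤ q ^ M := pow_le_pow_right₀ (by linarith) hM
  have h4 : (8:ℝ) * q ^ (2*s) ≤ q ^ (2*s+3) := by
    rw [pow_add, mul_comm]
    apply mul_le_mul_of_nonneg_left _ (by positivity)
    calc (8:ℝ) = 2 ^ 3 := by norm_num
      _ ≤ q ^ 3 := pow_le_pow_left₀ (by norm_num) hq' 3
  rw [abs_le] at h0 h1 h2
  have t1 : (tri (j+1) : ℝ) = tri j + (j + 1) := by rw [tri_succ]; push_cast; ring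
  have t2 : (tri (j+2) : ℝ) = tri j + (2 * j + 3) := by
    rw [show j + 2 = (j+1) + 1 by ring, tri_succ, tri_succ]; push_cast; ring
  rw [t1] at h1
  rw [t2] at h2
  push_cast at h1 h2
  have h5 : 8 * q ^ (2*s) * zf w 0 ≤ q ^ M * zf w 0 :=
    mul_le_mul_of_nonneg_right (h4.trans h3) hz.le
  nlinarith

end tube

section test
variable (q M s : ℕ)

/-- The test functional with parameter `t`: `ζ i = q ^ i`, `u = q ^ (M+1)`, `v = t`,
`a i = - q ^ i u`, `b i = q ^ i t`. -/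
noncomputable def tw (t : ℝ) : Co M s → ℝ :=
  Sum.elim (fun i => (q:ℝ) ^ (i:ℕ)) (Sum.elim (fun b => if b then t else (q:ℝ) ^ (M+1))
    (Sum.elim (fun i => - ((q:ℝ) ^ (i:ℕ) * q ^ (M+1))) (fun i => (q:ℝ) ^ (i:ℕ) * t)))

variable {q M s} {t : ℝ}

lemma tw_z {i : ℕ} (hi : i ≤ M) : zf (tw q M s t) i = q ^ i := by
  unfold zf; rw [dif_pos (by omega)]; rfl
lemma tw_a {i : ℕ} (hi : i < 2*s) : af (tw q M s t) i = - (q ^ i * q ^ (M+1)) := by
  unfold af; rw [dif_pos hi]; rfl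
lemma tw_b {i : ℕ} (hi : i < s) : bf (tw q M s t) i = q ^ i * t := by
  unfold bf; rw [dif_pos hi]; rfl
lemma tw_u : uf (tw q M s t) = q ^ (M+1) := rfl
lemma tw_v : vf (tw q M s t) = t := rfl

lemma geom (i : ℕ) : ((q:ℝ) - 1) * ∑ l ∈ range i, (q:ℝ) ^ l = q ^ i - 1 := by
  induction i with
  | zero => simp
  | succ i ih => rw [sum_range_succ, mul_add, ih, pow_succ]; ring

lemma tw_neg (hq : 2 ≤ q) (ht : 0 < t) (i : Di M s) : vd q (tw q M s t) i < 0 := by
  have hq' : (2:ℝ) ≤ q := by exact_mod_cast hq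
  unfold vd
  rcases i with i | b | ⟨i, σ⟩ | ⟨i, σ⟩
  · rw [dot_dz]
    have hi := i.2
    rw [tw_z (by omega), sum_congr rfl (fun l hl => tw_z (by rw [mem_range] at hl; omega)), geom]
    linarith
  · cases b
    · rw [dot_du0, tw_z le_rfl, tw_u, pow_succ]
      have : (0:ℝ) < q ^ M := by positivity
      nlinarith
    · rw [dot_du1, tw_v]; linarith
  · rw [dot_da]
    have hi := i.2
    rw [tw_z (by omega), tw_u, tw_a hi,
      sum_congr rfl (fun l hl => tw_a (by rw [mem_range] at hl; omega)), sum_neg_distrib,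
      ← sum_mul]
    have h := geom (q := q) (i:ℕ)
    have : (sg σ : ℝ) * (-((q:ℝ) ^ (i:ℕ) * q ^ (M+1)) - -(q:ℝ) ^ (M+1) -
        (q - 1) * -((∑ l ∈ range (i:ℕ), (q:ℝ) ^ l) * q ^ (M+1))) = 0 := by
      rw [show ((q:ℝ) - 1) * -((∑ l ∈ range (i:ℕ), (q:ℝ) ^ l) * q ^ (M+1)) =
        - (((q:ℝ) - 1) * ∑ l ∈ range (i:ℕ), (q:ℝ) ^ l) * q ^ (M+1) by ring, h]
      ring
    rw [this]
    norm_num
  · rw [dot_db]
    have hi := i.2
    rw [tw_z (by omega), tw_v, tw_b hi,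
      sum_congr rfl (fun l hl => tw_b (by rw [mem_range] at hl; omega)), ← sum_mul]
    have h := geom (q := q) (i:ℕ)
    have : (sg σ : ℝ) * ((q:ℝ) ^ (i:ℕ) * t - t -
        (q - 1) * ((∑ l ∈ range (i:ℕ), (q:ℝ) ^ l) * t)) = 0 := by
      rw [show ((q:ℝ) - 1) * ((∑ l ∈ range (i:ℕ), (q:ℝ) ^ l) * t) =
        (((q:ℝ) - 1) * ∑ l ∈ range (i:ℕ), (q:ℝ) ^ l) * t by ring, h]
      ring
    rw [this]
    norm_num

lemma tw_pt {j : ℕ} (hj : j < q ^ s) :
    vp q (tw q M s t) j = j * t - tri j * q ^ (M+1) := by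
  unfold vp
  rw [dot_pt]
  have h1 : tri j < q ^ (2*s) := tri_lt' hj
  have e1 : ∑ i ∈ range (2*s), (dig q (tri j) i : ℝ) * af (tw q M s t) i =
      - tri j * q ^ (M+1) := by
    rw [← sum_dig h1, ← sum_neg_distrib, sum_mul]
    apply sum_congr rfl
    intro i hi
    rw [tw_a (mem_range.1 hi)]
    ring
  have e2 : ∑ i ∈ range s, (dig q j i : ℝ) * bf (tw q M s t) i = j * t := by
    conv_rhs => rw [← sum_dig hj]
    rw [sum_mul]
    apply sum_congr rfl
    intro i hi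
    rw [tw_b (mem_range.1 hi)]
    ring
  rw [e1, e2]
  ring

end test

end Pool.Agent.TH105.LW
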