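import Pool.Agent.TH105.LW.Abs
import Pool.Agent.TH105.LW.Tube
import Pool.Agent.TH105.LW.Hull

set_option autoImplicit false

/-!
# Lattice polytopes in `[0,k]^n` with an exponential forced simplex path
-/

namespace Pool.Agent.TH105.LW

open Finset

/-- The feasible set `A x ≤ b`, `x ≥ 0`. -/
def feasible {m n : ℕ} (A : Fin m → Fin n → ℤ) (b : Fin m → ℤ) : Set (Fin n → ℝ) :=
  {x | (∀ j, 0 ≤ x j) ∧ ∀ i, ∑ j, (A i j : ℝ) * x j ≤ b i}

/-- The objective function. -/
def val {n : ℕ} (c : Fin n → ℤ) (x : Fin n → ℝ) : ℝ := ∑ j, (c j : ℝ) * x j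

/-- A step of the simplex method from the vertex `x` of `P` to the vertex `y`: the segment from `x`
to `y` is a face of `P` (the set of all maximisers of some linear functional on `P`), and the
objective function increases. -/
def Pivot {n : ℕ} (P : Set (Fin n → ℝ)) (c : Fin n → ℤ) (x y : Fin n → ℝ) : Prop :=
  x ∈ P.extremePoints ℝ ∧ y ∈ P.extremePoints ℝ ∧ IsExposed ℝ P (segment ℝ x y) ∧ val c x < val c y

section fn
variable {n M s : ℕ} (e : Fin n ≃ Co M s) (q : ℕ)

/-- The weights of a functional. -/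
noncomputable def wt (l : (Fin n → ℝ) →L[ℝ] ℝ) (k : Co M s) : ℝ := l (Pi.single (e.symm k) 1)

lemma apply_comp (l : (Fin n → ℝ) →L[ℝ] ℝ) (f : Co M s → ℝ) :
    l (fun i => f (e i)) = ∑ k, f k * wt e l k := by
  have h : (fun i => f (e i)) = ∑ i, f (e i) • (Pi.single i (1:ℝ) : Fin n → ℝ) := by
    ext j
    rw [Finset.sum_apply, sum_eq_single j]
    · simp
    · intro i _ hi
      simp [Pi.single_eq_of_ne' hi]
    · intro h; exact absurd (mem_univ _) h
  rw [h, map_sum, ← Equiv.sum_comp e]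
  apply sum_congr rfl
  intro i _
  rw [map_smul, smul_eq_mul]
  unfold wt
  rw [Equiv.symm_apply_apply]

/-- The functional with given weights. -/
noncomputable def lw (w : Co M s → ℝ) : (Fin n → ℝ) →L[ℝ] ℝ :=
  ∑ i, (w (e i)) • ContinuousLinearMap.proj (R := ℝ) (φ := fun _ : Fin n => ℝ) i

lemma lw_apply (w : Co M s → ℝ) (x : Fin n → ℝ) : lw e w x = ∑ i, w (e i) * x i := by
  unfold lw
  rw [_root_.sum_apply]
  rfl

lemma lw_comp (w : Co M s → ℝ) (f : Co M s → ℝ) :
    lw e w (fun i => f (e i)) = ∑ k, f k * w k := by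
  rw [lw_apply, ← Equiv.sum_comp e (fun k => f k * w k)]
  exact sum_congr rfl fun i _ => mul_comm _ _

/-- The integral points. -/
def pI (j : ℕ) : Fin n → ℤ := fun i => pt q M s j (e i) + ((q:ℤ) - 1)
/-- The integral vectors. -/
def dI (i : Di M s) : Fin n → ℤ := fun k => dv q M s i (e k)

lemma cst_pI (j : ℕ) : cst (pI e q j) = (fun i => ((pt q M s j (e i) : ℤ) : ℝ)) +
    fun _ => (q:ℝ) - 1 := by
  ext i
  simp [cst, pI]

lemma l_p (l : (Fin n → ℝ) →L[ℝ] ℝ) (j : ℕ) :
    l (cst (pI e q j)) = vp q (wt e l) j + l (fun _ => (q:ℝ) - 1) := by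
  rw [cst_pI, map_add]
  congr 1
  exact apply_comp e l (fun k => ((pt q M s j k : ℤ) : ℝ))

lemma l_d (l : (Fin n → ℝ) →L[ℝ] ℝ) (i : Di M s) : l (cst (dI e q i)) = vd q (wt e l) i :=
  apply_comp e l (fun k => ((dv q M s i k : ℤ) : ℝ))

lemma lw_p (w : Co M s → ℝ) (j : ℕ) :
    lw e w (cst (pI e q j)) = vp q w j + lw e w (fun _ => (q:ℝ) - 1) := by
  rw [cst_pI, map_add]
  congr 1
  exact lw_comp e w (fun k => ((pt q M s j k : ℤ) : ℝ))

lemma lw_d (w : Co M s → ℝ) (i : Di M s) : lw e w (cst (dI e q i)) = vd q w i :=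
  lw_comp e w (fun k => ((dv q M s i k : ℤ) : ℝ))

/-- The integral objective function. -/
def cI : Co M s → ℤ :=
  Sum.elim (fun i => (q:ℤ) ^ (i:ℕ)) (Sum.elim (fun b => if b then (q:ℤ) ^ s * q ^ (M+1) else
    (q:ℤ) ^ (M+1))
    (Sum.elim (fun i => - ((q:ℤ) ^ (i:ℕ) * q ^ (M+1)))
      (fun i => (q:ℤ) ^ (i:ℕ) * (q ^ s * q ^ (M+1)))))

lemma cI_cast (k : Co M s) : ((cI q k : ℤ) : ℝ) = tw q M s (q ^ s * q ^ (M+1)) k := by
  rcases k with k | k | k | k
  · simp [cI, tw]
  · cases k <;> simp [cI, tw]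
  · simp [cI, tw]
  · simp [cI, tw]

variable {q}

lemma cI_abs (hq : 2 ≤ q) (k : Co M s) : |(cI q k : ℤ)| ≤ (q:ℤ) ^ (M + 3 + 3 * s) := by
  have key : ∀ a : ℕ, a ≤ M + 3 + 3 * s → (q:ℤ) ^ a ≤ (q:ℤ) ^ (M + 3 + 3 * s) := fun a ha =>
    pow_le_pow_right₀ (by omega) ha
  rcases k with k | k | k | k
  · simp only [cI, Sum.elim_inl]
    rw [abs_of_nonneg (by positivity)]
    have := k.2
    exact key _ (by omega)
  · cases k
    · simp only [cI, Sum.elim_inl, Sum.elim_inr, Bool.false_eq_true, if_false]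
      rw [abs_of_nonneg (by positivity)]
      exact key _ (by omega)
    · simp only [cI, Sum.elim_inl, Sum.elim_inr, if_true]
      rw [abs_of_nonneg (by positivity), ← pow_add]
      exact key _ (by omega)
  · simp only [cI, Sum.elim_inl, Sum.elim_inr]
    rw [abs_neg, abs_of_nonneg (by positivity), ← pow_add]
    have := k.2
    exact key _ (by omega)
  · simp only [cI, Sum.elim_inr]
    rw [abs_of_nonneg (by positivity), ← pow_add, ← pow_add]
    have := k.2
    exact key _ (by omega)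

end fn

section full
variable {q M s : ℕ}

lemma rec_zero {m : ℕ} {f : ℕ → ℝ} {r : ℝ} (h : ∀ i < m, f i = r * ∑ l ∈ range i, f l) :
    ∀ i < m, f i = 0 := by
  intro i
  induction i using Nat.strong_induction_on with
  | _ i ih =>
    intro hi
    rw [h i hi, sum_eq_zero (fun l hl => ih l (mem_range.1 hl) (by rw [mem_range] at hl; omega)),
      mul_zero]

/-- The vectors `dv i` span. -/
lemma wt_zero {w : Co M s → ℝ} (h : ∀ i, vd q w i = 0) : ∀ k, w k = 0 := by
  have hz : ∀ i < M + 1, zf w i = 0 := by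
    apply rec_zero (r := (q:ℝ) - 1)
    intro i hi
    have := h (Sum.inl ⟨i, hi⟩)
    rw [vd, dot_dz] at this
    simp only at this
    linarith
  have hu : uf w = 0 := by
    have := h (Sum.inr (Sum.inl false))
    rw [vd, dot_du0, hz M (by omega)] at this
    linarith
  have hv : vf w = 0 := by
    have := h (Sum.inr (Sum.inl true))
    rw [vd, dot_du1] at this
    linarith
  have ha : ∀ i < 2 * s, af w i = 0 := by
    apply rec_zero (r := (q:ℝ) - 1)
    intro i hi
    have := h (Sum.inr (Sum.inr (Sum.inl (⟨i, hi⟩, true))))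
    rw [vd, dot_da, hz 0 (by omega), hu] at this
    simp [sg] at this
    linarith
  have hb : ∀ i < s, bf w i = 0 := by
    apply rec_zero (r := (q:ℝ) - 1)
    intro i hi
    have := h (Sum.inr (Sum.inr (Sum.inr (⟨i, hi⟩, true))))
    rw [vd, dot_db, hz 0 (by omega), hv] at this
    simp [sg] at this
    linarith
  intro k
  rcases k with k | k | k | k
  · rw [zf_eq w k]; exact hz _ k.2
  · cases k
    · exact hu
    · exact hv
  · rw [af_eq w k]; exact ha _ k.2
  · rw [bf_eq w k]; exact hb _ k.2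

lemma span_top {n : ℕ} (e : Fin n ≃ Co M s) :
    Submodule.span ℝ (Set.range fun i : Di M s => cst (dI e q i)) = ⊤ := by
  by_contra hne
  obtain ⟨f, hf, hker⟩ := Submodule.exists_le_ker_of_lt_top _ (lt_top_iff_ne_top.2 hne)
  apply hf
  have h1 : ∀ i, vd q (wt e f.toContinuousLinearMap) i = 0 := by
    intro i
    rw [← l_d]
    have : cst (dI e q i) ∈ LinearMap.ker f := hker (Submodule.subset_span ⟨i, rfl⟩)
    exact this
  have h2 := wt_zero h1
  ext j
  have h3 := h2 (e j)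
  unfold wt at h3
  rw [Equiv.symm_apply_apply] at h3
  simpa using h3

end full

/-- The main construction, for given `e`. -/
theorem construct {q n M s : ℕ} (hq : 2 ≤ q) (e : Fin n ≃ Co M s) (hM : 2 * s + 3 ≤ M) :
    ∃ (V : Finset (Fin n → ℤ)) (x : ℕ → Fin n → ℤ),
      V.Nonempty ∧ (∀ v ∈ V, ∀ j, 0 ≤ v j ∧ v j ≤ 3 * ((q:ℤ) - 1)) ∧
      (interior (convexHull ℝ (cst '' (V : Set (Fin n → ℤ))))).Nonempty ∧
      cst (x 0) ∈ (convexHull ℝ (cst '' (V : Set (Fin n → ℤ)))).extremePoints ℝ ∧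
      (∀ k < q ^ s - 1, Pivot (convexHull ℝ (cst '' (V : Set (Fin n → ℤ)))) (fun j => cI q (e j))
        (cst (x k)) (cst (x (k+1)))) ∧
      (∀ k ≤ q ^ s - 1, ∀ y, Pivot (convexHull ℝ (cst '' (V : Set (Fin n → ℤ))))
        (fun j => cI q (e j)) (cst (x k)) y → k < q ^ s - 1 ∧ y = cst (x (k+1))) ∧
      (∀ y ∈ convexHull ℝ (cst '' (V : Set (Fin n → ℤ))),
        val (fun j => cI q (e j)) y ≤ val (fun j => cI q (e j)) (cst (x (q ^ s - 1)))) := by
  classical
  have hq0 : 0 < q := by omega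
  have hq' : (0:ℝ) < q := by exact_mod_cast hq0
  set L := q ^ s - 1 with hL
  have h2s : 1 ≤ q ^ s := Nat.one_le_pow _ _ hq0
  set p : ℕ → Fin n → ℝ := fun j => cst (pI e q j) with hp
  set d : Di M s → Fin n → ℝ := fun i => cst (dI e q i) with hd
  set V : Finset (Fin n → ℤ) := (univ : Finset (Fin (q^s) × Option (Di M s))).image
    (fun r => match r.2 with
      | none => pI e q r.1
      | some i => pI e q r.1 + dI e q i) with hV
  have hVgen : cst '' (V : Set (Fin n → ℤ)) = gen L p d := by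
    ext z
    constructor
    · rintro ⟨v, hv, rfl⟩
      rw [hV, coe_image] at hv
      obtain ⟨⟨j, o⟩, _, rfl⟩ := hv
      have hj := j.2
      refine ⟨j, by omega, ?_⟩
      cases o with
      | none => left; rfl
      | some i =>
        right
        refine ⟨i, ?_⟩
        ext k
        simp [cst, hp, hd]
    · rintro ⟨j, hj, h⟩
      have hj' : j < q ^ s := by omega
      rcases h with rfl | ⟨i, rfl⟩
      · refine ⟨pI e q j, ?_, rfl⟩
        rw [hV, mem_coe, mem_image]
        exact ⟨(⟨j, hj'⟩, none), mem_univ _, rfl⟩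
      · refine ⟨pI e q j + dI e q i, ?_, ?_⟩
        · rw [hV, mem_coe, mem_image]
          exact ⟨(⟨j, hj'⟩, some i), mem_univ _, rfl⟩
        · ext k
          simp [cst, hp, hd]
  set c : (Fin n → ℝ) →L[ℝ] ℝ := lw e (tw q M s (q ^ s * q ^ (M+1))) with hc
  have hval : ∀ x, val (fun j => cI q (e j)) x = c x := by
    intro x
    rw [hc, lw_apply]
    unfold val
    exact sum_congr rfl fun i _ => by rw [cI_cast]
  have hU : (0:ℝ) < q ^ (M+1) := by positivity
  have hS : (0:ℝ) < q ^ s := by positivity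
  -- value of the test functionals on the path
  have hT : ∀ (t : ℝ) (j : ℕ), j ≤ L → lw e (tw q M s t) (p j) =
      j * t - (j * (j + 1) / 2) * q ^ (M+1) + lw e (tw q M s t) (fun _ => (q:ℝ) - 1) := by
    intro t j hj
    rw [hp]
    simp only
    rw [lw_p, tw_pt (by omega), tri_real]
  have H1 : ∀ i, c (d i) < 0 := by
    intro i
    rw [hc, hd]
    simp only
    rw [lw_d]
    exact tw_neg hq (by positivity) i
  have H2 : ∀ j < L, c (p j) < c (p (j+1)) := by
    intro j hj
    rw [hc, hT _ j hj.le, hT _ (j+1) hj]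
    have h1 : ((j:ℝ) + 1) < q ^ s := by
      have : j + 1 < q ^ s := by omega
      exact_mod_cast this
    push_cast
    nlinarith [mul_pos hU (sub_pos.2 h1)]
  have H3 : ∀ l : (Fin n → ℝ) →L[ℝ] ℝ, (∀ i, l (d i) < 0) → ∀ j, j + 2 ≤ L →
      l (p (j+1)) ≤ l (p j) → l (p (j+2)) < l (p (j+1)) := by
    intro l hl j hj hle
    have h1 : ∀ i, vd q (wt e l) i < 0 := fun i => by
      have := hl i
      rw [hd] at this
      simp only at this
      rwa [l_d] at this
    rw [hp] at hle ⊢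
    simp only at hle ⊢
    rw [l_p, l_p] at hle
    rw [l_p, l_p]
    have := unimodal hq hM h1 (j := j) (by omega) (by linarith)
    linarith
  have H4 : ∀ j ≤ L, ∃ l : (Fin n → ℝ) →L[ℝ] ℝ, (∀ i, l (d i) < 0) ∧
      ∀ i ≤ L, i ≠ j → l (p i) < l (p j) := by
    intro j hj
    refine ⟨lw e (tw q M s (((j:ℝ) + 1/2) * q ^ (M+1))), fun i => ?_, fun i hi hij => ?_⟩
    · rw [hd]
      simp only
      rw [lw_d]
      exact tw_neg hq (by positivity) i
    · rw [hT _ i hi, hT _ j hj]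
      have h1 : (0:ℝ) < ((i:ℝ) - j) ^ 2 := by
        have : (i:ℝ) - j ≠ 0 := sub_ne_zero.2 (by exact_mod_cast hij)
        positivity
      nlinarith [mul_pos hU h1]
  have H5 : ∀ j < L, ∃ l : (Fin n → ℝ) →L[ℝ] ℝ, (∀ i, l (d i) < 0) ∧
      l (p (j+1)) = l (p j) ∧ ∀ i ≤ L, i ≠ j → i ≠ j + 1 → l (p i) < l (p j) := by
    intro j hj
    refine ⟨lw e (tw q M s (((j:ℝ) + 1) * q ^ (M+1))), fun i => ?_, ?_, fun i hi hij hij' => ?_⟩
    · rw [hd]
      simp only
      rw [lw_d]
      exact tw_neg hq (by positivity) i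
    · rw [hT _ j hj.le, hT _ (j+1) hj]
      push_cast
      ring
    · rw [hT _ i hi, hT _ j hj.le]
      have h1 : (0:ℝ) < ((i:ℝ) - j) * ((i:ℝ) - j - 1) := by
        rcases lt_or_gt_of_ne hij with h | h
        · have : (i:ℝ) < j := by exact_mod_cast h
          nlinarith
        · have h' : j + 1 < i := by omega
          have : (j:ℝ) + 1 < i := by exact_mod_cast h'
          nlinarith
      nlinarith [mul_pos hU h1]
  refine ⟨V, pI e q, ?_, ?_, ?_, ?_, ?_, ?_, ?_⟩
  · rw [hV]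
    refine ⟨pI e q 0, mem_image.2 ⟨(⟨0, h2s⟩, none), mem_univ _, rfl⟩⟩
  · intro v hv j
    rw [hV, mem_image] at hv
    obtain ⟨⟨k, o⟩, _, rfl⟩ := hv
    have h1 := pt_range hq M s k (e j)
    cases o with
    | none =>
      simp only [pI]
      omega
    | some i =>
      have h2 := dv_range hq M s i (e j)
      simp only [pI, dI, Pi.add_apply]
      omega
  · rw [interior_convexHull_nonempty_iff_affineSpan_eq_top, hVgen]
    have hne : (gen L p d).Nonempty := ⟨p 0, 0, Nat.zero_le _, Or.inl rfl⟩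
    rw [AffineSubspace.affineSpan_eq_top_iff_vectorSpan_eq_top_of_nonempty ℝ _ _ hne, eq_top_iff,
      ← span_top (q := q) e]
    apply Submodule.span_le.2
    rintro _ ⟨i, rfl⟩
    have h1 : p 0 + d i ∈ gen L p d := ⟨0, Nat.zero_le _, Or.inr ⟨i, rfl⟩⟩
    have h2 : p 0 ∈ gen L p d := ⟨0, Nat.zero_le _, Or.inl rfl⟩
    have h3 := vsub_mem_vectorSpan ℝ h1 h2
    rw [vsub_eq_sub, add_sub_cancel_left] at h3
    exact h3
  · rw [hVgen]
    exact vert (p := p) (Nat.zero_le _) (H4 0 (Nat.zero_le _))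
  · intro k hk
    rw [hVgen]
    refine ⟨vert (p := p) hk.le (H4 k hk.le), vert (p := p) hk (H4 (k+1) hk),
      edge (p := p) hk (H5 k hk), ?_⟩
    rw [hval, hval]
    exact H2 k hk
  · intro k hk y hy
    rw [hVgen] at hy
    obtain ⟨h1, h2, h3, h4⟩ := hy
    rw [hval, hval] at h4
    exact forced (p := p) H1 H2 H3 hk ⟨h1, h2, h3, h4⟩
  · intro y hy
    rw [hVgen] at hy
    rw [hval, hval]
    have hmono : ∀ b, b ≤ L → ∀ a ≤ b, c (p a) ≤ c (p b) := by
      intro b
      induction b with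
      | zero => intro _ a ha; rw [Nat.le_zero.1 ha]
      | succ b ih =>
        intro hb a ha
        rcases Nat.lt_or_ge a (b+1) with h | h
        · exact (ih (by omega) a (by omega)).trans (H2 b (by omega)).le
        · rw [show a = b + 1 by omega]
    exact hull_le H1 (fun j hj => hmono L le_rfl j hj) y hy

/-- **Every version of the simplex method is exponential on lattice polytopes in `[0,k]^n`.** -/
theorem main (k n s : ℕ) (hk : 3 ≤ k) (h : 5 * s + 6 ≤ n) :
    ∃ (m : ℕ) (A : Fin m → Fin n → ℤ) (b : Fin m → ℤ) (c : Fin n → ℤ) (x : ℕ → Fin n → ℤ),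
      (∀ j, |c j| ≤ (k / 3 + 1 : ℕ) ^ n) ∧
      (∃ V : Finset (Fin n → ℤ), (∀ v ∈ V, ∀ j, 0 ≤ v j ∧ v j ≤ k) ∧
        feasible A b =
          convexHull ℝ ((fun (v : Fin n → ℤ) (j : Fin n) => (v j : ℝ)) '' (V : Set (Fin n → ℤ)))) ∧
      (interior (feasible A b)).Nonempty ∧
      (fun j => (x 0 j : ℝ)) ∈ (feasible A b).extremePoints ℝ ∧
      (∀ i < (k / 3 + 1) ^ s - 1,
        Pivot (feasible A b) c (fun j => (x i j : ℝ)) (fun j => (x (i+1) j : ℝ))) ∧
      (∀ i ≤ (k / 3 + 1) ^ s - 1, ∀ y, Pivot (feasible A b) c (fun j => (x i j : ℝ)) y →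
        i < (k / 3 + 1) ^ s - 1 ∧ y = fun j => (x (i+1) j : ℝ)) ∧
      (∀ y ∈ feasible A b, val c y ≤ val c (fun j => (x ((k / 3 + 1) ^ s - 1) j : ℝ))) := by
  classical
  obtain ⟨q, hqk⟩ : ∃ q, q = k / 3 + 1 := ⟨_, rfl⟩
  have hq : 2 ≤ q := by omega
  have hqk' : 3 * (q - 1) ≤ k := by omega
  rw [← hqk]
  obtain ⟨M, hM⟩ : ∃ M, n = M + 3 + 3 * s := ⟨n - 3 - 3 * s, by omega⟩
  have hcard : Fintype.card (Co M s) = n := by
    simp only [Fintype.card_sum, Fintype.card_fin, Fintype.card_bool]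
    omega
  have e : Fin n ≃ Co M s := (Fintype.equivFinOfCardEq hcard).symm
  obtain ⟨V, x, hne, hV, hint, h0, h1, h2, h3⟩ := construct hq e (by omega)
  obtain ⟨S, hS⟩ := exists_rows V hne
  set T := S.equivFin.symm with hT
  have hP : feasible (fun i : Fin S.card => (T i).1.1) (fun i => (T i).1.2) =
      convexHull ℝ (cst '' (V : Set (Fin n → ℤ))) := by
    ext y
    rw [hS]
    constructor
    · rintro ⟨_, h⟩ r hr
      have := h (S.equivFin ⟨r, hr⟩)
      simp only [hT, Equiv.symm_apply_apply] at this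
      exact this
    · intro h
      refine ⟨fun j => ?_, fun i => h _ (T i).2⟩
      have hsub : convexHull ℝ (cst '' (V : Set (Fin n → ℤ))) ⊆ {y | 0 ≤ y j} := by
        apply convexHull_min
        · rintro _ ⟨v, hv, rfl⟩
          have := (hV v hv j).1
          simp only [cst, Set.mem_ofPred_eq]
          exact_mod_cast this
        · exact convex_halfSpace_ge (LinearMap.proj j : (Fin n → ℝ) →ₗ[ℝ] ℝ).isLinear 0
      exact hsub ((hS y).2 h)
  refine ⟨S.card, fun i => (T i).1.1, fun i => (T i).1.2, fun j => cI q (e j), x, ?_,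
    ⟨V, fun v hv j => ?_, ?_⟩, ?_, ?_, ?_, ?_, ?_⟩
  · intro j
    have h1 := cI_abs hq (e j)
    rwa [← hM] at h1
  · have := hV v hv j
    omega
  · rw [hP]; rfl
  · rw [hP]; exact hint
  · rw [hP]; exact h0
  · rw [hP]; exact h1
  · rw [hP]; exact h2
  · rw [hP]; exact h3

end Pool.Agent.TH105.LW
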