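import Mathlib

set_option autoImplicit false

/-!
# Digits in base `q` and approximate multiplication by `q`
-/

namespace Pool.Agent.TH105.LW

open Finset

/-- If `f i` is `g + (q - 1) ∑_{l < i} f l` up to `z`, then `f i` is `q ^ i g` up to `q ^ i z`. -/
lemma dbl {q m : ℕ} (hq : 1 ≤ q) {f : ℕ → ℝ} {g z : ℝ}
    (h : ∀ i < m, |f i - g - (q - 1) * ∑ l ∈ range i, f l| ≤ z) {i : ℕ} (hi : i < m) :
    |f i - q ^ i * g| ≤ q ^ i * z := by
  have hq' : (0:ℝ) ≤ (q:ℝ) - 1 := by
    have : (1:ℝ) ≤ q := by exact_mod_cast hq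
    linarith
  have key : ∀ i ≤ m, |g + (q - 1) * ∑ l ∈ range i, f l - q ^ i * g| ≤ (q ^ i - 1) * z := by
    intro i
    induction i with
    | zero => intro _; simp
    | succ i ih =>
      intro hi
      have h1 := ih (by omega)
      have h2 := h i (by omega)
      rw [sum_range_succ]
      have e : g + ((q:ℝ) - 1) * (∑ l ∈ range i, f l + f i) - q ^ (i+1) * g =
          q * (g + (q - 1) * ∑ l ∈ range i, f l - q ^ i * g) +
          (q - 1) * (f i - g - (q - 1) * ∑ l ∈ range i, f l) := by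
        rw [pow_succ]; ring
      rw [e]
      refine (abs_add_le _ _).trans ?_
      rw [abs_mul, abs_mul, abs_of_nonneg (by positivity : (0:ℝ) ≤ q), abs_of_nonneg hq', pow_succ]
      have m1 := mul_le_mul_of_nonneg_left h1 (by positivity : (0:ℝ) ≤ q)
      have m2 := mul_le_mul_of_nonneg_left h2 hq'
      linarith
  have h1 := key i hi.le
  have h2 := h i hi
  have e : f i - q ^ i * g = (g + (q - 1) * ∑ l ∈ range i, f l - q ^ i * g) +
      (f i - g - (q - 1) * ∑ l ∈ range i, f l) := by ring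
  rw [e]
  refine (abs_add_le _ _).trans ?_
  linarith

/-- The `i`-th digit in base `q`. -/
def dig (q N i : ℕ) : ℕ := N / q ^ i % q

lemma dig_lt {q : ℕ} (hq : 1 ≤ q) (N i : ℕ) : dig q N i < q := Nat.mod_lt _ (by omega)

lemma sum_dig_mod (q N m : ℕ) : ∑ i ∈ range m, dig q N i * q ^ i = N % q ^ m := by
  induction m with
  | zero => simp [Nat.mod_one]
  | succ m ih =>
    rw [sum_range_succ, ih, Nat.mod_pow_succ]
    unfold dig
    ring

lemma sum_dig {q N m : ℕ} (h : N < q ^ m) : ∑ i ∈ range m, (dig q N i : ℝ) * q ^ i = N := by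
  have := sum_dig_mod q N m
  rw [Nat.mod_eq_of_lt h] at this
  exact_mod_cast this

lemma dig_approx {q N m : ℕ} (hN : N < q ^ m) {f : ℕ → ℝ} {g z : ℝ}
    (h : ∀ i < m, |f i - q ^ i * g| ≤ q ^ i * z) :
    |∑ i ∈ range m, (dig q N i : ℝ) * f i - N * g| ≤ N * z := by
  rw [← sum_dig hN, sum_mul, sum_mul, ← sum_sub_distrib]
  refine (abs_sum_le_sum_abs _ _).trans (sum_le_sum fun i hi => ?_)
  rw [mem_range] at hi
  rw [show (dig q N i : ℝ) * f i - dig q N i * q ^ i * g = dig q N i * (f i - q ^ i * g) by ring,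
    abs_mul, abs_of_nonneg (by positivity : (0:ℝ) ≤ dig q N i)]
  calc (dig q N i : ℝ) * |f i - q ^ i * g| ≤ dig q N i * (q ^ i * z) :=
        mul_le_mul_of_nonneg_left (h i hi) (by positivity)
    _ = _ := by ring

/-- Triangular numbers. -/
def tri (j : ℕ) : ℕ := j * (j + 1) / 2

lemma two_tri (j : ℕ) : 2 * tri j = j * (j + 1) := by
  unfold tri
  exact Nat.mul_div_cancel' (Nat.even_mul_succ_self j).two_dvd

lemma tri_real (j : ℕ) : (tri j : ℝ) = j * (j + 1) / 2 := by
  have := two_tri j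
  have h : (2:ℝ) * tri j = j * (j + 1) := by exact_mod_cast this
  linarith

lemma tri_succ (j : ℕ) : tri (j+1) = tri j + (j + 1) := by
  have h1 := two_tri j
  have h2 := two_tri (j+1)
  nlinarith

lemma tri_lt {q s j : ℕ} (hj : j < q ^ s) : j + tri j ≤ q ^ (2 * s) := by
  have h1 := two_tri j
  have h2 : q ^ (2 * s) = q ^ s * q ^ s := by rw [two_mul, pow_add]
  have h3 : j * j + j ≤ q ^ s * q ^ s := by nlinarith
  have h5 : 1 ≤ q ^ s := by omega
  have h4 : j * 2 ≤ q ^ s * q ^ s + j := by nlinarith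
  rw [h2]
  nlinarith

lemma tri_lt' {q s j : ℕ} (hj : j < q ^ s) : tri j < q ^ (2 * s) := by
  rcases Nat.eq_zero_or_pos j with h0 | h0
  · rw [h0] at hj ⊢
    have h : tri 0 = 0 := by simp [tri]
    rw [h, two_mul, pow_add]
    exact Nat.mul_pos hj hj
  · have := tri_lt hj; omega

end Pool.Agent.TH105.LW
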